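import Pool.Agent.R566.Secretary.Final

/-!
# Prophet secretary with one quantile query on the maximum: a ratio above `1 - 1/e`

The algorithm asks the query `q = 1 - exp (-0.995)`.  It accepts every value above the answer `v`;
during the last `⌈n / 100⌉` steps it accepts also every value that is larger than all values seen
before.  Its competitive ratio is at least `0.633 > 1 - 1/e = 0.63212…`.
-/

set_option autoImplicit false

open MeasureTheory ProbabilityTheory
open scoped ENNReal BigOperators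

namespace Pool.Agent.Results.MP_47c63b_lc.BeatsOneMinusInvE

open Pool.Agent.R566.Secretary

lemma measurableSet_accept {n : ℕ} (v : ℝ) (σ : Equiv.Perm (Fin n)) (t : Fin n) :
    MeasurableSet {x : Fin n → ℝ | algo.accept n v (seen (fun i => x (σ i)) t) (x (σ t))} := by
  have h1 : {x : Fin n → ℝ | algo.accept n v (seen (fun i => x (σ i)) t) (x (σ t))} =
      {x | v < x (σ t)} ∪ {x | n - (n + 99) / 100 ≤ t.val ∧
        x ∈ ⋂ r, ⋂ (_ : r < t), {x : Fin n → ℝ | x (σ r) < x (σ t)}} := by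
    ext x
    have := accept_iff v (fun i => x (σ i)) t
    simp only [Set.mem_ofPred_eq, Set.mem_union, Set.mem_iInter]
    exact this
  rw [h1]
  apply MeasurableSet.union
  · exact measurableSet_lt measurable_const (measurable_pi_apply (σ t))
  · apply MeasurableSet.inter (MeasurableSet.const _)
    exact MeasurableSet.iInter fun r => MeasurableSet.iInter fun _ =>
      measurableSet_lt (measurable_pi_apply (σ r)) (measurable_pi_apply (σ t))

lemma measurable_value {n : ℕ} (v : ℝ) (σ : Equiv.Perm (Fin n)) :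
    Measurable fun x : Fin n → ℝ => algo.value v (fun i => x (σ i)) := by
  classical
  unfold Algorithm.value
  apply Finset.measurable_sum
  intro t _
  apply Measurable.ite
  · apply MeasurableSet.inter (measurableSet_accept v σ t)
    have h1 : {x : Fin n → ℝ | ∀ s < t, ¬ algo.accept n v (seen (fun i => x (σ i)) s) (x (σ s))} =
        ⋂ s, ⋂ (_ : s < t),
          {x : Fin n → ℝ | algo.accept n v (seen (fun i => x (σ i)) s) (x (σ s))}ᶜ := by
      ext x
      simp
    show MeasurableSet {x : Fin n → ℝ | ∀ s < t,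
      ¬ algo.accept n v (seen (fun i => x (σ i)) s) (x (σ s))}
    rw [h1]
    exact MeasurableSet.iInter fun s => MeasurableSet.iInter fun _ =>
      (measurableSet_accept v σ s).compl
  · exact (measurable_pi_apply (σ t)).ennreal_ofReal
  · exact measurable_const

lemma main {n : ℕ} (hn : 1 ≤ n) (I : Instance n) (hopt : I.opt < ∞) (v : ℝ)
    (hans : I.Answers (algo.query n) v) :
    ENNReal.ofReal (633 / 1000) * I.opt ≤ algo.alg I v := by
  classical
  set p : ℝ := Real.exp (-(199 / 200)) with hp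
  have hp0 : 0 < p := Real.exp_pos _
  have hp1 : p ≤ 1 := Real.exp_le_one_iff.2 (by norm_num)
  have hq : I.joint {x | ∃ i, v < x i} = ENNReal.ofReal (1 - p) := hans
  -- the probability to be below `v`
  have hP : ∏ i, wi I v i = ENNReal.ofReal p := by
    have h1 := joint_gt I v
    rw [hq] at h1
    have h2 : ∏ i, wi I v i ≤ 1 := by rw [← joint_le]; exact prob_le_one
    have h3 : 1 - (1 - ∏ i, wi I v i) = ∏ i, wi I v i :=
      ENNReal.sub_sub_cancel ENNReal.one_ne_top h2
    rw [← h3, ← h1]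
    rw [← ENNReal.ofReal_one, ← ENNReal.ofReal_sub _ (by linarith)]
    congr 1; ring
  have hv : 0 ≤ v := by
    by_contra hneg
    push Not at hneg
    have h1 : wi I v ⟨0, hn⟩ = 0 := by
      unfold wi
      refine measure_mono_null ?_ (I.law_nonneg _)
      intro y hy
      exact lt_of_le_of_lt hy hneg
    have h2 : ∏ i, wi I v i = 0 := Finset.prod_eq_zero (Finset.mem_univ _) h1
    rw [h2] at hP
    have := (ENNReal.ofReal_pos.2 hp0).ne
    exact this hP
  -- finiteness
  have hzfin : ∀ i, zi I v i ≠ ∞ := by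
    intro i
    refine ne_top_of_le_ne_top hopt.ne ?_
    unfold zi Instance.opt
    rw [← lintegral_eval I (f := fun y => ENNReal.ofReal (y - v))
      ((measurable_id.sub measurable_const).ennreal_ofReal) i]
    apply lintegral_mono
    intro x
    refine le_trans ?_ (le_iSup (fun i => ENNReal.ofReal (x i)) i)
    apply ENNReal.ofReal_le_ofReal
    linarith
  have hZfin : (∑ i, zi I v i) ≠ ∞ := by
    rw [← lt_top_iff_ne_top, ENNReal.sum_lt_top]
    exact fun i _ => lt_top_iff_ne_top.2 (hzfin i)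
  have hM := m1_le I v
  rw [hP] at hM
  have hMfin : ∫⁻ x, m1 v x ∂I.joint ≠ ∞ :=
    ne_top_of_le_ne_top (ENNReal.mul_ne_top ENNReal.ofReal_ne_top ENNReal.ofReal_ne_top) hM
  have hWeq := lintegral_ww I hv
  have hsum := sum_above I hP
  have hW : ∫⁻ x, ww v x ∂I.joint ≤ ENNReal.ofReal v * ENNReal.ofReal (199 / 200) +
      ∑ i, zi I v i := by
    rw [hWeq]
    exact add_le_add (mul_le_mul_right hsum _) (le_refl _)
  have hWfin : ∫⁻ x, ww v x ∂I.joint ≠ ∞ :=
    ne_top_of_le_ne_top (ENNReal.add_ne_top.2 ⟨ENNReal.mul_ne_top ENNReal.ofReal_ne_top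
      ENNReal.ofReal_ne_top, hZfin⟩) hW
  have hO := opt_le I v
  rw [hq] at hO
  -- the integrated inequality
  have hfac0 : (n.factorial : ℝ≥0∞) ≠ 0 := by exact_mod_cast (Nat.factorial_pos n).ne'
  have hfact : (n.factorial : ℝ≥0∞) ≠ ∞ := ENNReal.natCast_ne_top _
  have hALG : ∑ σ : Equiv.Perm (Fin n), ∫⁻ x, algo.value v (fun t => x (σ t)) ∂I.joint =
      n.factorial * algo.alg I v := by
    unfold Algorithm.alg
    rw [ENNReal.mul_div_cancel hfac0 hfact]
  by_cases hAfin : algo.alg I v = ∞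
  · rw [hAfin]; exact le_top
  set k := n - (n + 99) / 100 with hk
  have hKfin : KK n k ≠ ∞ := by
    unfold KK
    apply ENNReal.div_ne_top (ENNReal.natCast_ne_top _)
    simp
  have hint : ∫⁻ x, ((n.factorial : ℝ≥0∞) * aa v x + zz v x +
      ((n - k : ℕ) : ℝ≥0∞) * (((n - 1).factorial : ℝ≥0∞) * m1 v x)) ∂I.joint ≤
      ∫⁻ x, ((∑ σ : Equiv.Perm (Fin n), algo.value v (fun i => x (σ i))) +
      KK n k * (((n - 1 - k : ℕ) : ℝ≥0∞) *
        (((n - 1).factorial : ℝ≥0∞) * (ww v x + m1 v x)))) ∂I.joint :=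
    lintegral_mono fun x => fixed_values hv x
  have hmm := measurable_m1 (n := n) v
  have hmw := measurable_ww (n := n) v
  have hmwm : Measurable (fun x : Fin n → ℝ => ww v x + m1 v x) := hmw.add hmm
  rw [lintegral_add_right _ ((hmm.const_mul _).const_mul _),
    lintegral_add_right _ (measurable_zz v), lintegral_const_mul _ (measurable_aa v),
    lintegral_const_mul _ (hmm.const_mul _), lintegral_const_mul _ hmm,
    lintegral_add_right _ (((hmwm.const_mul _).const_mul _).const_mul _),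
    lintegral_const_mul _ ((hmwm.const_mul _).const_mul _),
    lintegral_const_mul _ (hmwm.const_mul _), lintegral_const_mul _ hmwm,
    lintegral_add_right _ hmm, lintegral_aa, hq,
    lintegral_finsetSum _ fun σ _ => measurable_value v σ, hALG] at hint
  have hzz := zz_lower I hn hP
  have hint2 : (n.factorial : ℝ≥0∞) * (ENNReal.ofReal v * ENNReal.ofReal (1 - p)) +
      ENNReal.ofReal (n.factorial * ((1 - p) / (199 / 200))) * (∑ i, zi I v i) +
      ((n - k : ℕ) : ℝ≥0∞) * (((n - 1).factorial : ℝ≥0∞) * ∫⁻ x, m1 v x ∂I.joint) ≤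
      n.factorial * algo.alg I v + KK n k * (((n - 1 - k : ℕ) : ℝ≥0∞) *
        (((n - 1).factorial : ℝ≥0∞) * (∫⁻ x, ww v x ∂I.joint + ∫⁻ x, m1 v x ∂I.joint))) :=
    le_trans (add_le_add (add_le_add (le_refl _) hzz) (le_refl _)) hint
  -- pass to real numbers
  set Z := (∑ i, zi I v i) with hZ
  set M := ∫⁻ x, m1 v x ∂I.joint with hMdef
  set W := ∫⁻ x, ww v x ∂I.joint with hWdef
  have hR := ENNReal.toReal_mono (by
    refine ENNReal.add_ne_top.2 ⟨ENNReal.mul_ne_top hfact hAfin, ?_⟩
    refine ENNReal.mul_ne_top hKfin (ENNReal.mul_ne_top (ENNReal.natCast_ne_top _)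
      (ENNReal.mul_ne_top (ENNReal.natCast_ne_top _) (ENNReal.add_ne_top.2 ⟨hWfin, hMfin⟩)))) hint2
  have t1 : (n.factorial : ℝ≥0∞) * (ENNReal.ofReal v * ENNReal.ofReal (1 - p)) ≠ ∞ :=
    ENNReal.mul_ne_top hfact (ENNReal.mul_ne_top ENNReal.ofReal_ne_top ENNReal.ofReal_ne_top)
  have t2 : ENNReal.ofReal (n.factorial * ((1 - p) / (199 / 200))) * Z ≠ ∞ :=
    ENNReal.mul_ne_top ENNReal.ofReal_ne_top hZfin
  have t3 : ((n - k : ℕ) : ℝ≥0∞) * (((n - 1).factorial : ℝ≥0∞) * M) ≠ ∞ :=
    ENNReal.mul_ne_top (ENNReal.natCast_ne_top _) (ENNReal.mul_ne_top (ENNReal.natCast_ne_top _) hMfin)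
  have t4 : (n.factorial : ℝ≥0∞) * algo.alg I v ≠ ∞ := ENNReal.mul_ne_top hfact hAfin
  have t5 : KK n k * (((n - 1 - k : ℕ) : ℝ≥0∞) *
        (((n - 1).factorial : ℝ≥0∞) * (W + M))) ≠ ∞ :=
    ENNReal.mul_ne_top hKfin (ENNReal.mul_ne_top (ENNReal.natCast_ne_top _)
      (ENNReal.mul_ne_top (ENNReal.natCast_ne_top _) (ENNReal.add_ne_top.2 ⟨hWfin, hMfin⟩)))
  have h1p : 0 ≤ 1 - p := by linarith
  rw [ENNReal.toReal_add (ENNReal.add_ne_top.2 ⟨t1, t2⟩) t3, ENNReal.toReal_add t1 t2,
    ENNReal.toReal_add t4 t5] at hR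
  simp only [ENNReal.toReal_mul, ENNReal.toReal_natCast, ENNReal.toReal_ofReal hv,
    ENNReal.toReal_ofReal h1p] at hR
  rw [ENNReal.toReal_ofReal (by positivity), ENNReal.toReal_add hWfin hMfin] at hR
  have hKr : (KK n k).toReal = ((n - 1 - k : ℕ) : ℝ) / ((k + 1 : ℕ) : ℝ) := by
    unfold KK
    rw [ENNReal.toReal_div, ENNReal.toReal_natCast, ENNReal.toReal_natCast]
  rw [hKr] at hR
  have hMr : M.toReal ≤ v * p := by
    have := ENNReal.toReal_mono (ENNReal.mul_ne_top ENNReal.ofReal_ne_top ENNReal.ofReal_ne_top) hM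
    rwa [ENNReal.toReal_mul, ENNReal.toReal_ofReal hv, ENNReal.toReal_ofReal hp0.le] at this
  have hWr : W.toReal ≤ v * (199 / 200) + Z.toReal := by
    have := ENNReal.toReal_mono (ENNReal.add_ne_top.2 ⟨ENNReal.mul_ne_top ENNReal.ofReal_ne_top
      ENNReal.ofReal_ne_top, hZfin⟩) hW
    rwa [ENNReal.toReal_add (ENNReal.mul_ne_top ENNReal.ofReal_ne_top ENNReal.ofReal_ne_top) hZfin,
      ENNReal.toReal_mul, ENNReal.toReal_ofReal hv, ENNReal.toReal_ofReal (by norm_num)] at this
  have hOr : I.opt.toReal ≤ v * (1 - p) + Z.toReal + M.toReal := by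
    have t6 : ENNReal.ofReal v * ENNReal.ofReal (1 - p) ≠ ∞ :=
      ENNReal.mul_ne_top ENNReal.ofReal_ne_top ENNReal.ofReal_ne_top
    have := ENNReal.toReal_mono (ENNReal.add_ne_top.2 ⟨ENNReal.add_ne_top.2 ⟨t6, hZfin⟩, hMfin⟩) hO
    rwa [ENNReal.toReal_add (ENNReal.add_ne_top.2 ⟨t6, hZfin⟩) hMfin, ENNReal.toReal_add t6 hZfin,
      ENNReal.toReal_mul, ENNReal.toReal_ofReal hv, ENNReal.toReal_ofReal h1p] at this
  have hfinal := arith hn hp hv ENNReal.toReal_nonneg ENNReal.toReal_nonneg ENNReal.toReal_nonneg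
    hMr hWr hOr hR
  rw [← ENNReal.ofReal_toReal hopt.ne, ← ENNReal.ofReal_mul (by norm_num),
    ← ENNReal.ofReal_toReal hAfin]
  exact ENNReal.ofReal_le_ofReal hfinal

/-- **Q1 has a positive answer.**  There is a (deterministic) algorithm in the single-query model
whose competitive ratio is strictly greater than `1 - 1/e`; its ratio is at least `0.633`. -/
theorem result : ∃ A : Algorithm,
    ENNReal.ofReal (1 - Real.exp (-1)) < A.ratio ∧ ENNReal.ofReal (633 / 1000) ≤ A.ratio := by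
  have h1 : ENNReal.ofReal (633 / 1000) ≤ algo.ratio := by
    unfold Algorithm.ratio
    refine le_iInf fun n => le_iInf fun hn => le_iInf fun I => le_iInf fun h0 => le_iInf fun ht =>
      le_iInf fun v => le_iInf fun hans => ?_
    rw [ENNReal.le_div_iff_mul_le (Or.inl h0.ne') (Or.inl ht.ne)]
    exact main hn I ht v hans
  refine ⟨algo, lt_of_lt_of_le ?_ h1, h1⟩
  rw [ENNReal.ofReal_lt_ofReal_iff (by norm_num)]
  have := Real.exp_neg_one_gt_d9
  linarith

end Pool.Agent.Results.MP_47c63b_lc.BeatsOneMinusInvE
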